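import Mathlib

/-! Definitions and statements (Props `S_X`) of the project IB (problem MP_5ac201_gt):
iterated intersection bodies of origin-symmetric convex bodies converge to the Euclidean ball. -/

set_option autoImplicit false

open MeasureTheory Set Filter Topology Metric
open scoped Pointwise RealInnerProductSpace ENNReal

namespace Pool.Agent.H58.LM.IB

/-- Euclidean space. -/
abbrev E (n : ℕ) : Type := EuclideanSpace ℝ (Fin n)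

/-- Origin-symmetric convex bodies. -/
structure Body {n : ℕ} (K : Set (E n)) : Prop where
  compact : IsCompact K
  convex : Convex ℝ K
  int : (interior K).Nonempty
  neg : ∀ x ∈ K, -x ∈ K

/-- The `(n-1)`-dimensional volume of the section of `K` by the hyperplane orthogonal to `u`. -/
noncomputable def secVol {n : ℕ} (K : Set (E n)) (u : E n) : ℝ :=
  ((volume : Measure (ℝ ∙ u)ᗮ) {y | (y : E n) ∈ K}).toReal

/-- The intersection body: the star body whose radial function is `secVol K`. -/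
def IB {n : ℕ} (K : Set (E n)) : Set (E n) :=
  {x | ∃ u : E n, ‖u‖ = 1 ∧ ∃ r : ℝ, 0 ≤ r ∧ r ≤ secVol K u ∧ x = r • u}

/-- `A K x = vol(K ∩ x^⊥) / ‖x‖`, homogeneous of degree `-1`; formally `∫_K δ(⟪x, z⟫) dz`. -/
noncomputable def A {n : ℕ} (K : Set (E n)) (x : E n) : ℝ := secVol K x / ‖x‖

/-- Volume as a real number. -/
noncomputable def vol {n : ℕ} (K : Set (E n)) : ℝ := (volume K).toReal

/-- The Lyapunov functional `vol(IK) / vol(K)^(n-1)` in dimension `n = N + 1`. -/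
noncomputable def F {N : ℕ} (K : Set (E (N + 1))) : ℝ := vol (IB K) / vol K ^ N

/-- The point of `E (N+1)` with first coordinate `s` and the other coordinates `y`. -/
noncomputable def mk {N : ℕ} (s : ℝ) (y : E N) : E (N + 1) :=
  WithLp.toLp 2 (Fin.cons s (fun i => y i) : Fin (N + 1) → ℝ)

theorem mk_zero_apply {N : ℕ} (s : ℝ) (y : E N) : mk s y 0 = s := rfl

theorem mk_succ_apply {N : ℕ} (s : ℝ) (y : E N) (i : Fin N) : mk s y i.succ = y i := rfl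

theorem mk_add {N : ℕ} (s s' : ℝ) (y y' : E N) : mk s y + mk s' y' = mk (s + s') (y + y') := by
  ext i
  refine Fin.cases ?_ (fun j => ?_) i
  · rfl
  · rfl

theorem smul_mk {N : ℕ} (c s : ℝ) (y : E N) : c • mk s y = mk (c * s) (c • y) := by
  ext i
  refine Fin.cases ?_ (fun j => ?_) i
  · rfl
  · rfl

theorem neg_mk {N : ℕ} (s : ℝ) (y : E N) : -mk s y = mk (-s) (-y) := by
  ext i
  refine Fin.cases ?_ (fun j => ?_) i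
  · rfl
  · rfl

theorem mk_sub {N : ℕ} (s s' : ℝ) (y y' : E N) : mk s y - mk s' y' = mk (s - s') (y - y') := by
  rw [sub_eq_add_neg, neg_mk, mk_add, sub_eq_add_neg, sub_eq_add_neg]

theorem mk_zero_zero {N : ℕ} : mk 0 (0 : E N) = 0 := by
  ext i
  refine Fin.cases ?_ (fun j => ?_) i
  · rfl
  · rfl

theorem exists_mk {N : ℕ} (x : E (N + 1)) : ∃ (s : ℝ) (y : E N), x = mk s y := by
  refine ⟨x 0, WithLp.toLp 2 (fun i => x i.succ), ?_⟩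
  ext i
  refine Fin.cases ?_ (fun j => ?_) i
  · rfl
  · rfl

theorem mk_inj {N : ℕ} {s s' : ℝ} {y y' : E N} : mk s y = mk s' y' ↔ s = s' ∧ y = y' := by
  constructor
  · intro h
    refine ⟨?_, ?_⟩
    · have := congrArg (fun x : E (N + 1) => x 0) h
      simpa [mk_zero_apply] using this
    · ext i
      have := congrArg (fun x : E (N + 1) => x i.succ) h
      simpa [mk_succ_apply] using this
  · rintro ⟨rfl, rfl⟩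
    rfl

theorem inner_mk {N : ℕ} (s s' : ℝ) (y y' : E N) :
    (⟪mk s y, mk s' y'⟫ : ℝ) = s * s' + ⟪y, y'⟫ := by
  simp only [PiLp.inner_apply, RCLike.inner_apply, conj_trivial, Fin.sum_univ_succ, mk_zero_apply,
    mk_succ_apply]
  ring_nf

theorem norm_mk_sq {N : ℕ} (s : ℝ) (y : E N) : ‖mk s y‖ ^ 2 = s ^ 2 + ‖y‖ ^ 2 := by
  rw [← real_inner_self_eq_norm_sq, ← real_inner_self_eq_norm_sq, inner_mk]
  ring

theorem continuous_mk {N : ℕ} : Continuous (fun p : ℝ × E N => mk p.1 p.2) := by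
  unfold mk
  refine (PiLp.continuous_toLp 2 _).comp ?_
  refine continuous_pi fun i => ?_
  refine Fin.cases ?_ (fun j => ?_) i
  · exact continuous_fst
  · simp only [Fin.cons_succ]
    fun_prop

theorem mk_one_ne {N : ℕ} (v : E N) : mk 1 v ≠ 0 := by
  intro h
  have := congrArg (fun x : E (N + 1) => x 0) h
  simp [mk_zero_apply] at this

/-! ### General facts -/

/-- GB: basic facts on the gauge. -/
def S_GB : Prop := ∀ {n : ℕ} (K : Set (E n)), Body K →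
  (∃ r R : ℝ, 0 < r ∧ 0 < R ∧ closedBall 0 r ⊆ K ∧ K ⊆ closedBall 0 R) ∧
  (∀ x, gauge K x ≤ 1 ↔ x ∈ K) ∧ (∀ x, x ≠ 0 → 0 < gauge K x) ∧
  (∀ (c : ℝ) x, gauge K (c • x) = |c| * gauge K x) ∧
  (∀ x y, gauge K (x + y) ≤ gauge K x + gauge K y) ∧ Continuous (gauge K) ∧
  0 < vol K ∧ volume K ≠ ∞ ∧ MeasurableSet K

/-- GC: norms are gauges of bodies. -/
def S_GC : Prop := ∀ {n : ℕ} (p : E n → ℝ), (∀ x y, p (x + y) ≤ p x + p y) →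
  (∀ (c : ℝ) x, p (c • x) = |c| * p x) → (∀ x, x ≠ 0 → 0 < p x) →
  Body {x | p x ≤ 1} ∧ gauge {x | p x ≤ 1} = p

/-- GS: dilates and linear images. -/
def S_GS : Prop := ∀ {n : ℕ} (K : Set (E n)), Body K →
  (∀ c : ℝ, 0 < c → Body (c • K) ∧ vol (c • K) = c ^ n * vol K ∧
    ∀ x, gauge (c • K) x = c⁻¹ * gauge K x) ∧
  ∀ T : E n ≃ₗ[ℝ] E n, Body (T '' K) ∧
    vol (T '' K) = |LinearMap.det (T : E n →ₗ[ℝ] E n)| * vol K ∧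
    ∀ x, gauge (T '' K) (T x) = gauge K x

/-- GM: inclusion and gauges. -/
def S_GM : Prop := ∀ {n : ℕ} (K L : Set (E n)), Body K → Body L → ∀ c : ℝ, 0 < c →
  (K ⊆ c • L ↔ ∀ x, gauge L x ≤ c * gauge K x)

/-- MP: the coordinates `mk` preserve the measure. -/
def S_MP : Prop := ∀ N : ℕ,
  MeasurePreserving (fun p : ℝ × E N => mk p.1 p.2) (volume.prod volume) volume

/-! ### Sections -/

/-- SLAB: sections are limits of slabs. -/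
def S_SLAB : Prop := ∀ {n : ℕ} (K : Set (E n)), Body K → ∀ x : E n, x ≠ 0 →
  Tendsto (fun ε : ℝ => vol (K ∩ {z | |⟪x, z⟫| ≤ ε}) / (2 * ε)) (𝓝[>] 0) (𝓝 (A K x))

/-- HOM: homogeneity, positivity, monotonicity. -/
def S_HOM : Prop := ∀ {n : ℕ} (K : Set (E n)), (∀ (c : ℝ) (x : E n), c ≠ 0 →
    A K (c • x) = |c|⁻¹ * A K x) ∧ (∀ x : E n, 0 ≤ A K x) ∧
  ∀ L : Set (E n), K ⊆ L → Body L → ∀ x, A K x ≤ A L x

/-- BALL: sections of balls. -/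
def S_BALL : Prop := ∀ {N : ℕ}, ∃ κ : ℝ, 0 < κ ∧ ∀ x : E (N + 1), x ≠ 0 → ∀ r : ℝ, 0 ≤ r →
  A (closedBall 0 r) x = κ * r ^ N / ‖x‖

/-- COV: linear covariance. -/
def S_COV : Prop := ∀ {n : ℕ} (K : Set (E n)), Body K → ∀ (T : E n ≃ₗ[ℝ] E n) (x : E n), x ≠ 0 →
  A (T '' K) x = |LinearMap.det (T : E n →ₗ[ℝ] E n)| *
    A K (LinearMap.adjoint (T : E n →ₗ[ℝ] E n) x)

/-- SC: dilates. -/
def S_SC : Prop := ∀ {N : ℕ} (K : Set (E (N + 1))), Body K → ∀ c : ℝ, 0 < c → ∀ x, x ≠ 0 →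
  A (c • K) x = c ^ N * A K x

/-- BND: bounds for the sections and for the slabs. -/
def S_BND : Prop := ∀ {N : ℕ} (K : Set (E (N + 1))), Body K → ∃ c C : ℝ, 0 < c ∧ 0 < C ∧
  ∀ x, x ≠ 0 → (c / ‖x‖ ≤ A K x ∧ A K x ≤ C / ‖x‖ ∧
    ∀ ε : ℝ, 0 < ε → vol (K ∩ {z | |⟪x, z⟫| ≤ ε}) / (2 * ε) ≤ C / ‖x‖)

/-- HSEC: sections in the chart. -/
def S_HSEC : Prop := ∀ {N : ℕ} (K : Set (E (N + 1))), Body K → ∀ v : E N,
  A K (mk 1 v) = (volume {y : E N | mk (-⟪v, y⟫) y ∈ K}).toReal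

/-! ### Busemann's theorem -/

/-- The point of `E (N+2)` with coordinates `a`, `b`, `z`. -/
noncomputable def mk2 {N : ℕ} (a b : ℝ) (z : E N) : E (N + 2) := mk a (mk b z)

/-- Volumes of the sections of codimension two. -/
noncomputable def hh {N : ℕ} (K : Set (E (N + 2))) (a b : ℝ) : ℝ :=
  (volume {z : E N | mk2 a b z ∈ K}).toReal

/-- BU1: the function `hh` is even, log-concave, bounded support, positive at the origin. -/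
def S_BU1 : Prop := ∀ {N : ℕ} (K : Set (E (N + 2))), Body K →
  (∀ a b, hh K (-a) (-b) = hh K a b) ∧ (∀ a b, 0 ≤ hh K a b) ∧ 0 < hh K 0 0 ∧
  (∃ M : ℝ, 0 < M ∧ ∀ a b, M < |a| ∨ M < |b| → hh K a b = 0) ∧
  Measurable (fun p : ℝ × ℝ => hh K p.1 p.2) ∧
  ∀ a b a' b' l : ℝ, 0 < l → l < 1 →
    hh K a b ^ l * hh K a' b' ^ (1 - l) ≤ hh K (l * a + (1 - l) * a') (l * b + (1 - l) * b')

/-- BU2: three sections in terms of `hh`. -/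
def S_BU2 : Prop := ∀ {N : ℕ} (K : Set (E (N + 2))), Body K →
  A K (mk2 1 0 0) = ∫ r, hh K 0 r ∧ A K (mk2 0 1 0) = ∫ r, hh K r 0 ∧
  A K (mk2 1 1 0) = ∫ r, hh K (-r) r

/-- HP: one-dimensional inequality (harmonic transport). -/
def S_HP : Prop := ∀ (P Q H : ℝ → ℝ) (f g : ℝ), 0 < f → 0 < g →
  ContinuousOn P (Ioo 0 f) → ContinuousOn Q (Ioo 0 g) → (∀ a ∈ Ioo 0 f, 0 < P a) →
  (∀ b ∈ Ioo 0 g, 0 < Q b) → IntegrableOn P (Ioo 0 f) → IntegrableOn Q (Ioo 0 g) →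
  (∀ r, 0 ≤ H r) → IntegrableOn H (Ioi 0) →
  (∀ a ∈ Ioo 0 f, ∀ b ∈ Ioo 0 g,
    P a ^ (b / (a + b)) * Q b ^ (a / (a + b)) ≤ H (a * b / (a + b))) →
  (∫ a in Ioo 0 f, P a) * (∫ b in Ioo 0 g, Q b) ≤
    ((∫ a in Ioo 0 f, P a) + ∫ b in Ioo 0 g, Q b) * ∫ r in Ioi 0, H r

/-- LCR: log-concave functions on the half-line. -/
def S_LCR : Prop := ∀ φ : ℝ → ℝ, (∀ r, 0 ≤ φ r) → (∀ r, φ (-r) = φ r) → 0 < φ 0 →
  (∃ M : ℝ, ∀ r, M < r → φ r = 0) →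
  (∀ a b l : ℝ, 0 < l → l < 1 → φ a ^ l * φ b ^ (1 - l) ≤ φ (l * a + (1 - l) * b)) →
  (∃ δ > 0, 0 < φ δ) →
  ∃ f : ℝ, 0 < f ∧ ContinuousOn φ (Ioo 0 f) ∧ (∀ r ∈ Ioo 0 f, 0 < φ r) ∧ (∀ r, f < r → φ r = 0) ∧
    (∀ r, φ r ≤ φ 0)

/-- BUC: Busemann's inequality in coordinates. -/
def S_BUC : Prop := ∀ {N : ℕ} (K : Set (E (N + 2))), Body K →
  (A K (mk2 1 1 0))⁻¹ ≤ (A K (mk2 1 0 0))⁻¹ + (A K (mk2 0 1 0))⁻¹

/-- BUS: Busemann's theorem. -/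
def S_BUS : Prop := ∀ {N : ℕ} (K : Set (E (N + 2))), Body K → ∀ x y : E (N + 2),
  x ≠ 0 → y ≠ 0 → x + y ≠ 0 → (A K (x + y))⁻¹ ≤ (A K x)⁻¹ + (A K y)⁻¹

/-- IBB: the intersection body is a body with gauge `1 / A K`. -/
def S_IBB : Prop := ∀ {N : ℕ}, 1 ≤ N → ∀ K : Set (E (N + 1)), Body K →
  Body (IB K) ∧ ∀ x, x ≠ 0 → gauge (IB K) x = (A K x)⁻¹

/-- ICOV: intersection bodies of linear images and dilates, monotonicity. -/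
def S_ICOV : Prop := ∀ {N : ℕ}, 1 ≤ N → ∀ K : Set (E (N + 1)), Body K →
  (∀ T : E (N + 1) ≃ₗ[ℝ] E (N + 1), ∃ S : E (N + 1) ≃ₗ[ℝ] E (N + 1), IB (T '' K) = S '' IB K ∧
    |LinearMap.det (S : E (N + 1) →ₗ[ℝ] E (N + 1))| =
      |LinearMap.det (T : E (N + 1) →ₗ[ℝ] E (N + 1))| ^ N ∧
    ∃ c : ℝ, 0 < c ∧ IB (IB (T '' K)) = c • (T '' IB (IB K))) ∧
  (∀ c : ℝ, 0 < c → IB (c • K) = c ^ N • IB K) ∧
  ∀ L : Set (E (N + 1)), Body L → K ⊆ L → IB K ⊆ IB L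

/-! ### Duality and the Lyapunov functional -/

/-- SYM: `∫_K A L = ∫_L A K`. -/
def S_SYM : Prop := ∀ {N : ℕ}, 1 ≤ N → ∀ K L : Set (E (N + 1)), Body K → Body L →
  ∫⁻ x in K, ENNReal.ofReal (A L x) = ∫⁻ x in L, ENNReal.ofReal (A K x)

/-- GINT: integral of `1 / gauge`. -/
def S_GINT : Prop := ∀ {N : ℕ}, 1 ≤ N → ∀ K L : Set (E (N + 1)), Body K → Body L →
  ∫⁻ x in K, ENNReal.ofReal (gauge L x)⁻¹ ≠ ∞ ∧
  ∫⁻ x in L, ENNReal.ofReal (gauge L x)⁻¹ = ENNReal.ofReal ((N + 1) / N) * volume L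

/-- BATH: bathtub principle. -/
def S_BATH : Prop := ∀ {N : ℕ}, 1 ≤ N → ∀ K L : Set (E (N + 1)), Body K → Body L →
  volume K = volume L →
  ∫⁻ x in K, ENNReal.ofReal (gauge L x)⁻¹ ≤ ∫⁻ x in L, ENNReal.ofReal (gauge L x)⁻¹ ∧
  (∫⁻ x in K, ENNReal.ofReal (gauge L x)⁻¹ = ∫⁻ x in L, ENNReal.ofReal (gauge L x)⁻¹ → K = L)

/-- DM: dual Minkowski inequality. -/
def S_DM : Prop := ∀ {N : ℕ}, 1 ≤ N → ∀ K L : Set (E (N + 1)), Body K → Body L →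
  (∫⁻ x in K, ENNReal.ofReal (gauge L x)⁻¹).toReal ^ (N + 1) ≤
    (((N : ℝ) + 1) / N) ^ (N + 1) * vol K ^ N * vol L ∧
  ((∫⁻ x in K, ENNReal.ofReal (gauge L x)⁻¹).toReal ^ (N + 1) =
    (((N : ℝ) + 1) / N) ^ (N + 1) * vol K ^ N * vol L → ∃ c : ℝ, 0 < c ∧ L = c • K)

/-- LYAP: the functional increases. -/
def S_LYAP : Prop := ∀ {N : ℕ}, 1 ≤ N → ∀ K : Set (E (N + 1)), Body K →
  F K ≤ F (IB K) ∧ (F (IB K) = F K → ∃ c : ℝ, 0 < c ∧ IB (IB K) = c • K)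

/-- FLIN: the functional is linearly invariant. -/
def S_FLIN : Prop := ∀ {N : ℕ}, 1 ≤ N → ∀ K : Set (E (N + 1)), Body K →
  ∀ T : E (N + 1) ≃ₗ[ℝ] E (N + 1), F (T '' K) = F K

/-- FNEAR: continuity of the functional and of `IB`. -/
def S_FNEAR : Prop := ∀ {N : ℕ}, 1 ≤ N → ∀ K L : Set (E (N + 1)), Body K → Body L → ∀ l : ℝ,
  1 ≤ l → K ⊆ l • L → L ⊆ l • K →
  F L ≤ l ^ (2 * (N + 1) * N) * F K ∧ IB K ⊆ l ^ N • IB L ∧ IB L ⊆ l ^ N • IB K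

/-! ### Compactness -/

/-- POSN: position. -/
def S_POSN : Prop := ∀ n : ℕ, ∃ C : ℝ, 1 ≤ C ∧ ∀ K : Set (E n), Body K →
  ∃ T : E n ≃ₗ[ℝ] E n, closedBall 0 1 ⊆ T '' K ∧ T '' K ⊆ closedBall 0 C

/-- SEL: Blaschke selection. -/
def S_SEL : Prop := ∀ (n : ℕ) (C : ℝ), 1 ≤ C → ∀ K : ℕ → Set (E n), (∀ j, Body (K j)) →
  (∀ j, closedBall 0 1 ⊆ K j ∧ K j ⊆ closedBall 0 C) →
  ∃ (L : Set (E n)) (φ : ℕ → ℕ), Body L ∧ StrictMono φ ∧ ∀ ε : ℝ, 0 < ε →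
    ∀ᶠ j in atTop, K (φ j) ⊆ (1 + ε) • L ∧ L ⊆ (1 + ε) • K (φ j)

/-- CPT: compactness modulo linear maps. -/
def S_CPT : Prop := ∀ (n : ℕ) (K : ℕ → Set (E n)), (∀ j, Body (K j)) →
  ∃ (L : Set (E n)) (T : ℕ → (E n ≃ₗ[ℝ] E n)) (φ : ℕ → ℕ), Body L ∧ StrictMono φ ∧
    ∀ ε : ℝ, 0 < ε → ∀ᶠ j in atTop, T j '' K (φ j) ⊆ (1 + ε) • L ∧ L ⊆ (1 + ε) • (T j '' K (φ j))

/-! ### Rigidity: `I (I K) = c K` only for ellipsoids -/

/-- The volume of the section of `K` by `(1, v)^⊥`, projected to the last coordinates. -/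
noncomputable def aE {N : ℕ} (K : Set (E (N + 1))) (v : E N) : ℝ≥0∞ :=
  volume {y : E N | mk (-⟪v, y⟫) y ∈ K}

/-- POLAR: integration in the chart. -/
def S_POLAR : Prop := ∀ {N : ℕ} (L : Set (E (N + 1))), Body L → ∀ q : ℕ, q ≤ N →
  ∀ φ : E (N + 1) → ℝ≥0∞, Measurable φ →
  (∀ (c : ℝ) x, c ≠ 0 → φ (c • x) = ENNReal.ofReal (|c|⁻¹ ^ q) * φ x) →
  ∫⁻ x in L, φ x = ENNReal.ofReal (2 / ((N : ℝ) + 1 - q)) *
    ∫⁻ v : E N, ENNReal.ofReal ((gauge L (mk 1 v))⁻¹ ^ (N + 1 - q)) * φ (mk 1 v)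

/-- VIB: volume of the intersection body in the chart. -/
def S_VIB : Prop := ∀ {N : ℕ}, 1 ≤ N → ∀ K : Set (E (N + 1)), Body K →
  volume (IB K) = ENNReal.ofReal (2 / ((N : ℝ) + 1)) * ∫⁻ v : E N, aE K v ^ (N + 1)

/-- DMV: mixed integral in the chart. -/
def S_DMV : Prop := ∀ {N : ℕ}, 1 ≤ N → ∀ K M : Set (E (N + 1)), Body K → Body M →
  ∫⁻ x in IB K, ENNReal.ofReal (A M x) =
    ENNReal.ofReal (2 / (N : ℝ)) * ∫⁻ v : E N, aE K v ^ N * aE M v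

/-- The continuous Steiner symmetrization in the direction of the first coordinate. -/
def Kt {N : ℕ} (K : Set (E (N + 1))) (t : ℝ) : Set (E (N + 1)) :=
  {x | ∃ (y : E N) (s₁ s₂ : ℝ), mk s₁ y ∈ K ∧ mk s₂ y ∈ K ∧
    x = mk ((1 - t / 2) * s₁ - t / 2 * s₂) y}

/-- Projection to the last coordinates. -/
def Pr {N : ℕ} (K : Set (E (N + 1))) : Set (E N) := {y | ∃ s, mk s y ∈ K}

noncomputable def mid {N : ℕ} (K : Set (E (N + 1))) (y : E N) : ℝ :=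
  (sSup {s | mk s y ∈ K} + sInf {s | mk s y ∈ K}) / 2

noncomputable def len {N : ℕ} (K : Set (E (N + 1))) (y : E N) : ℝ :=
  (sSup {s | mk s y ∈ K} - sInf {s | mk s y ∈ K}) / 2

/-- FIB: fibres. -/
def S_FIB : Prop := ∀ {N : ℕ} (K : Set (E (N + 1))), Body K →
  (∀ s y, mk s y ∈ K ↔ y ∈ Pr K ∧ |s - mid K y| ≤ len K y) ∧
  (∀ t, 0 ≤ t → t ≤ 1 → ∀ s y, mk s y ∈ Kt K t ↔ y ∈ Pr K ∧ |s - (1 - t) * mid K y| ≤ len K y) ∧
  (∀ y, mid K (-y) = -mid K y ∧ len K (-y) = len K y) ∧ (∀ y ∈ Pr K, 0 ≤ len K y) ∧ Body (Pr K) ∧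
  (∀ y ∈ interior (Pr K), 0 < len K y) ∧ ContinuousOn (mid K) (interior (Pr K)) ∧
  ContinuousOn (len K) (interior (Pr K))

/-- KTB: the symmetrized sets are bodies of the same volume. -/
def S_KTB : Prop := ∀ {N : ℕ} (K : Set (E (N + 1))), Body K → ∀ t, 0 ≤ t → t ≤ 1 →
  Body (Kt K t) ∧ volume (Kt K t) = volume K

/-- KTN: closeness of the symmetrized sets. -/
def S_KTN : Prop := ∀ {N : ℕ} (K : Set (E (N + 1))), Body K → ∃ C : ℝ, 0 < C ∧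
  ∀ t, 0 ≤ t → t ≤ 1 → K ⊆ (1 + C * t) • Kt K t ∧ Kt K t ⊆ (1 + C * t) • K

/-- UPB: second order upper bound for the volume of the intersection body. -/
def S_UPB : Prop := ∀ {N : ℕ}, 1 ≤ N → ∀ K : Set (E (N + 1)), Body K → ∀ c : ℝ, 0 < c →
  IB (IB K) = c • K → ∃ C : ℝ, 0 < C ∧ ∀ t, 0 ≤ t → t ≤ 1 →
    ∫⁻ v : E N, aE (Kt K t) v ^ (N + 1) ≤
      ENNReal.ofReal (1 + C * t ^ 2) * ∫⁻ v : E N, aE K v ^ (N + 1)

/-- PWI: the pointwise inequality used for UPB. -/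
def S_PWI : Prop := ∀ (N : ℕ) (C : ℝ), 0 < C → ∃ C' : ℝ, 0 < C' ∧ ∀ t a b : ℝ, 0 ≤ t → t ≤ 1 →
  0 ≤ a → 0 ≤ b → b ≤ (1 + C * t) ^ N * a → a ≤ (1 + C * t) ^ N * b →
  b ^ (N + 1) + (N + 1) * a ^ (N + 1) ≤ (1 + C' * t ^ 2) * a ^ (N + 1) + (N + 1) * (a ^ N * b)

/-- REP: the representation by polytopes. -/
def S_REP : Prop := ∀ {N : ℕ} (K : Set (E (N + 1))), IsClosed K →
  ∫⁻ v : E N, aE K v ^ (N + 1) =
    ∫⁻ Y : Fin (N + 1) → E N, volume {v : E N | ∀ i, mk (-⟪v, Y i⟫) (Y i) ∈ K}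

/-- The volume of the polytope `{v : |⟪v, Y i⟫ + τ mid (Y i)| ≤ len (Y i)}`. -/
noncomputable def Qv {N : ℕ} (K : Set (E (N + 1))) (Y : Fin (N + 1) → E N) (τ : ℝ) : ℝ≥0∞ :=
  volume {v : E N | ∀ i, Y i ∈ Pr K ∧ |⟪v, Y i⟫ + τ * mid K (Y i)| ≤ len K (Y i)}

/-- LCQ: midpoint log-concavity and symmetry. -/
def S_LCQ : Prop := ∀ {N : ℕ} (K : Set (E (N + 1))) (Y : Fin (N + 1) → E N),
  (∀ a b : ℝ, Qv K Y a * Qv K Y b ≤ Qv K Y ((a + b) / 2) ^ 2) ∧ ∀ a : ℝ, Qv K Y (-a) = Qv K Y a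

/-- LCS: consequence for a midpoint log-concave even function. -/
def S_LCS : Prop := ∀ q : ℝ → ℝ, (∀ a, 0 ≤ q a) → (∀ a b, q a * q b ≤ q ((a + b) / 2) ^ 2) →
  (∀ a, q (-a) = q a) → q 1 ≤ q 0 ∧ ∀ k : ℕ,
    q 1 + (1 / 2) ^ k * (q 1 * (q 0 - q 1) / q 0) ≤ q (1 - (1 / 2) ^ k)

/-- AEZ: the polytopes of a fixed point. -/
def S_AEZ : Prop := ∀ {N : ℕ}, 1 ≤ N → ∀ K : Set (E (N + 1)), Body K → ∀ c : ℝ, 0 < c →
  IB (IB K) = c • K →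
  ∀ᵐ Y : Fin (N + 1) → E N, Qv K Y 0 ≠ ∞ ∧ (Qv K Y 1 = 0 ∨ Qv K Y 0 = Qv K Y 1)

/-- PAR: the formula for `Qv` at configurations whose last `N` points form a basis. -/
def S_PAR : Prop := ∀ {N : ℕ} (K : Set (E (N + 1))), Body K → ∀ Y : Fin (N + 1) → E N,
  (∀ i, Y i ∈ Pr K) → LinearIndependent ℝ (fun i : Fin N => Y i.succ) → ∀ c : Fin N → ℝ,
  Y 0 = ∑ i, c i • Y i.succ → ∃ d : ℝ, 0 < d ∧ ∀ τ : ℝ, Qv K Y τ = ENNReal.ofReal d *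
    volume {r : Fin N → ℝ | (∀ i, |r i| ≤ len K (Y i.succ)) ∧
      |(∑ i, c i * r i) + τ * (mid K (Y 0) - ∑ i, c i * mid K (Y i.succ))| ≤ len K (Y 0)}

/-- QCON: continuity of `Qv` at nondegenerate configurations. -/
def S_QCON : Prop := ∀ {N : ℕ} (K : Set (E (N + 1))), Body K → ∀ Y : Fin (N + 1) → E N,
  (∀ i, Y i ∈ interior (Pr K)) → LinearIndependent ℝ (fun i : Fin N => Y i.succ) → ∀ τ : ℝ,
  ContinuousAt (fun Z : Fin (N + 1) → E N => Qv K Z τ) Y ∧ Qv K Y τ ≠ ∞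

/-- PLAN: planar strictness. -/
def S_PLAN : Prop := ∀ a b d μ : ℝ, 0 < a → 0 < b → |a - b| < d → d < a + b → μ ≠ 0 →
  |μ| < a + b + d →
  0 < volume {p : ℝ × ℝ | |p.1| ≤ a ∧ |p.2| ≤ b ∧ |p.1 + p.2 + μ| ≤ d} ∧
  volume {p : ℝ × ℝ | |p.1| ≤ a ∧ |p.2| ≤ b ∧ |p.1 + p.2 + μ| ≤ d} <
    volume {p : ℝ × ℝ | |p.1| ≤ a ∧ |p.2| ≤ b ∧ |p.1 + p.2| ≤ d}

/-- STR: a nondegenerate configuration with strict inequality. -/
def S_STR : Prop := ∀ {N : ℕ}, 2 ≤ N → ∀ K : Set (E (N + 1)), Body K →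
  ∀ (y₁ y₂ : E N) (γ : ℝ), 0 < γ → LinearIndependent ℝ ![y₁, y₂] →
  y₁ ∈ interior (Pr K) → y₂ ∈ interior (Pr K) → γ • (y₁ + y₂) ∈ interior (Pr K) →
  |len K y₁ - len K y₂| < len K (γ • (y₁ + y₂)) / γ →
  len K (γ • (y₁ + y₂)) / γ < len K y₁ + len K y₂ →
  |mid K (γ • (y₁ + y₂)) - γ * (mid K y₁ + mid K y₂)| / γ <
    len K y₁ + len K y₂ + len K (γ • (y₁ + y₂)) / γ →
  mid K (γ • (y₁ + y₂)) ≠ γ * (mid K y₁ + mid K y₂) →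
  ∃ Y : Fin (N + 1) → E N, (∀ i, Y i ∈ interior (Pr K)) ∧
    LinearIndependent ℝ (fun i : Fin N => Y i.succ) ∧ 0 < Qv K Y 1 ∧ Qv K Y 1 < Qv K Y 0

/-- REL: the relation between the midpoints at a fixed point. -/
def S_REL : Prop := ∀ {N : ℕ}, 2 ≤ N → ∀ K : Set (E (N + 1)), Body K → ∀ c : ℝ, 0 < c →
  IB (IB K) = c • K → ∀ (y₁ y₂ : E N) (γ : ℝ), 0 < γ → LinearIndependent ℝ ![y₁, y₂] →
  y₁ ∈ interior (Pr K) → y₂ ∈ interior (Pr K) → γ • (y₁ + y₂) ∈ interior (Pr K) →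
  |len K y₁ - len K y₂| < len K (γ • (y₁ + y₂)) / γ →
  len K (γ • (y₁ + y₂)) / γ < len K y₁ + len K y₂ →
  |mid K (γ • (y₁ + y₂)) - γ * (mid K y₁ + mid K y₂)| / γ <
    len K y₁ + len K y₂ + len K (γ • (y₁ + y₂)) / γ →
  mid K (γ • (y₁ + y₂)) = γ * (mid K y₁ + mid K y₂)

/-- LIN: the midpoints are linear. -/
def S_LIN : Prop := ∀ {N : ℕ}, 2 ≤ N → ∀ K : Set (E (N + 1)), Body K → ∀ c : ℝ, 0 < c →
  IB (IB K) = c • K → ∃ ℓ : E N →ₗ[ℝ] ℝ, ∀ y ∈ interior (Pr K), mid K y = ℓ y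

/-- REFL: reflection in the first coordinate direction. -/
def S_REFL : Prop := ∀ {N : ℕ}, 2 ≤ N → ∀ K : Set (E (N + 1)), Body K → ∀ c : ℝ, 0 < c →
  IB (IB K) = c • K → ∃ φ : E (N + 1) →ₗ[ℝ] ℝ, φ (mk 1 0) = 1 ∧
    ∀ x ∈ K, x - (2 * φ x) • mk 1 0 ∈ K

/-- REFA: reflections in all directions. -/
def S_REFA : Prop := ∀ {N : ℕ}, 2 ≤ N → ∀ K : Set (E (N + 1)), Body K → ∀ c : ℝ, 0 < c →
  IB (IB K) = c • K → ∀ e : E (N + 1), e ≠ 0 → ∃ φ : E (N + 1) →ₗ[ℝ] ℝ, φ e = 1 ∧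
    ∀ x ∈ K, x - (2 * φ x) • e ∈ K

/-- ISO: isotropic position. -/
def S_ISO : Prop := ∀ {n : ℕ} (K : Set (E n)), Body K → ∃ T : E n ≃ₗ[ℝ] E n, ∃ c : ℝ, 0 < c ∧
  ∀ x : E n, ∫ z in T '' K, ⟪x, z⟫ ^ 2 = c * ‖x‖ ^ 2

/-- ELL: a body with reflections in all directions is an ellipsoid. -/
def S_ELL : Prop := ∀ {n : ℕ} (K : Set (E n)), Body K →
  (∀ e : E n, e ≠ 0 → ∃ φ : E n →ₗ[ℝ] ℝ, φ e = 1 ∧ ∀ x ∈ K, x - (2 * φ x) • e ∈ K) →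
  ∃ T : E n ≃ₗ[ℝ] E n, T '' K = closedBall 0 1

/-- RIG: rigidity. -/
def S_RIG : Prop := ∀ {N : ℕ}, 2 ≤ N → ∀ K : Set (E (N + 1)), Body K → ∀ c : ℝ, 0 < c →
  IB (IB K) = c • K → ∃ T : E (N + 1) ≃ₗ[ℝ] E (N + 1), T '' K = closedBall 0 1

/-! ### The theorem -/

/-- `K` is within Banach-Mazur distance `1 + ε` of the ball. -/
def Near {n : ℕ} (ε : ℝ) (K : Set (E n)) : Prop := ∃ T : E n ≃ₗ[ℝ] E n,
  closedBall 0 1 ⊆ T '' K ∧ T '' K ⊆ closedBall 0 (1 + ε)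

/-- FBD: the functional is bounded. -/
def S_FBD : Prop := ∀ N : ℕ, 1 ≤ N → ∃ C : ℝ, ∀ K : Set (E (N + 1)), Body K → 0 < F K ∧ F K ≤ C

/-- EPRE: ellipsoids are intersection bodies of ellipsoids. -/
def S_EPRE : Prop := ∀ {N : ℕ}, 1 ≤ N → ∀ T : E (N + 1) ≃ₗ[ℝ] E (N + 1),
  ∃ S : E (N + 1) ≃ₗ[ℝ] E (N + 1), IB (S '' closedBall 0 1) = T '' closedBall 0 1

/-- GAP: either the functional increases substantially or the body is near the ball. -/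
def S_GAP : Prop := ∀ N : ℕ, 2 ≤ N → ∀ ε : ℝ, 0 < ε → ∃ δ : ℝ, 0 < δ ∧
  ∀ K : Set (E (N + 1)), Body K → F (IB K) ≤ F K + δ → Near ε K

/-- SUP: the functional is bounded by its value at the ball. -/
def S_SUP : Prop := ∀ N : ℕ, 2 ≤ N → ∀ K : Set (E (N + 1)), Body K →
  F K ≤ F (closedBall (0 : E (N + 1)) 1)

/-- CONT: near bodies have nearly maximal functional. -/
def S_CONT : Prop := ∀ N : ℕ, 2 ≤ N → ∀ δ : ℝ, 0 < δ → ∃ ε : ℝ, 0 < ε ∧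
  ∀ K : Set (E (N + 1)), Body K → Near ε K → F (closedBall (0 : E (N + 1)) 1) - δ ≤ F K

/-- UNI: uniform convergence. -/
def S_UNI : Prop := ∀ N : ℕ, 2 ≤ N → ∀ ε : ℝ, 0 < ε → ∃ M : ℕ, ∀ m, M ≤ m →
  ∀ K : Set (E (N + 1)), Body K → Body (IB^[m] K) ∧ Near ε (IB^[m] K)

/-- NELL: limit case. -/
def S_NELL : Prop := ∀ N : ℕ, 2 ≤ N → ∀ K : Set (E (N + 1)), Body K →
  (∀ ε : ℝ, 0 < ε → Near ε K) → ∃ T : E (N + 1) ≃ₗ[ℝ] E (N + 1), T '' K = closedBall 0 1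

end Pool.Agent.H58.LM.IB
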