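import Pool.Agent.H58.LM.L.THP

/-! One dimensional tools for the planar `L^p` Mahler problem. -/

set_option autoImplicit false

open MeasureTheory Set Filter
open scoped ENNReal Topology

namespace Pool.Agent.H58.LM.L

/-- Harmonic transport for concave exponents along three rays. -/
lemma ball {v : ℝ × ℝ → ℝ} (hconc : ConcaveOn ℝ univ v) (hcont : Continuous v)
    {t0 t1 l t : ℝ} (hl0 : 0 < l) (hl1 : l < 1) (ht : t = (1 - l) * t0 + l * t1) (σ : ℝ)
    {R : ℝ} (hR : 0 < R)
    (hint : IntegrableOn (fun a => Real.exp (v (σ * a, σ * (t * a)))) (Ioi 0)) :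
    (∫ a in (0 : ℝ)..R, Real.exp (v (σ * a, σ * (t0 * a)))) *
      (∫ a in (0 : ℝ)..R, Real.exp (v (σ * a, σ * (t1 * a)))) ≤
    (l * (∫ a in (0 : ℝ)..R, Real.exp (v (σ * a, σ * (t0 * a)))) +
      (1 - l) * ∫ a in (0 : ℝ)..R, Real.exp (v (σ * a, σ * (t1 * a)))) *
      ∫ a in Ioi (0 : ℝ), Real.exp (v (σ * a, σ * (t * a))) := by
  have hl1' : 0 < 1 - l := by linarith
  set P : ℝ → ℝ := fun a => Real.exp (v (σ * ((1 - l) * a), σ * (t0 * ((1 - l) * a)))) with hP
  set Q : ℝ → ℝ := fun b => Real.exp (v (σ * (l * b), σ * (t1 * (l * b)))) with hQ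
  set Hf : ℝ → ℝ := fun r => Real.exp (v (σ * r, σ * (t * r))) with hHf
  have hPc : Continuous P := by rw [hP]; fun_prop
  have hQc : Continuous Q := by rw [hQ]; fun_prop
  have key := Pool.Agent.H58.LM.IB.HP_ok P Q Hf (R / (1 - l)) (R / l) (by positivity)
    (by positivity) hPc.continuousOn hQc.continuousOn (fun a _ => Real.exp_pos _)
    (fun a _ => Real.exp_pos _)
    (hPc.integrableOn_Icc.mono_set Ioo_subset_Icc_self)
    (hQc.integrableOn_Icc.mono_set Ioo_subset_Icc_self)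
    (fun r => (Real.exp_pos _).le) hint ?_
  swap
  · intro a ha b hb
    have ha0 : 0 < a := ha.1
    have hb0 : 0 < b := hb.1
    have hab : 0 < a + b := by positivity
    rw [hP, hQ, hHf]
    simp only
    rw [← Real.exp_mul, ← Real.exp_mul, ← Real.exp_add]
    apply Real.exp_le_exp.2
    have h1 := hconc.2 (mem_univ (σ * ((1 - l) * a), σ * (t0 * ((1 - l) * a))))
      (mem_univ (σ * (l * b), σ * (t1 * (l * b))))
      (show 0 ≤ b / (a + b) by positivity) (show 0 ≤ a / (a + b) by positivity)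
      (by rw [← add_div, add_comm b a, div_self hab.ne'])
    have h2 : (b / (a + b)) • ((σ * ((1 - l) * a), σ * (t0 * ((1 - l) * a))) : ℝ × ℝ) +
        (a / (a + b)) • ((σ * (l * b), σ * (t1 * (l * b))) : ℝ × ℝ) =
        (σ * (a * b / (a + b)), σ * (t * (a * b / (a + b)))) := by
      ext
      · simp only [Prod.smul_mk, Prod.mk_add_mk, smul_eq_mul]
        field_simp
        ring
      · simp only [Prod.smul_mk, Prod.mk_add_mk, smul_eq_mul]
        rw [ht]
        field_simp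
    rw [h2] at h1
    simp only [smul_eq_mul] at h1
    linarith
  have e1 : ∫ a in Ioo 0 (R / (1 - l)), P a =
      (1 - l)⁻¹ * ∫ a in (0 : ℝ)..R, Real.exp (v (σ * a, σ * (t0 * a))) := by
    rw [← integral_Ioc_eq_integral_Ioo, ← intervalIntegral.integral_of_le (by positivity), hP,
      intervalIntegral.integral_comp_mul_left (fun x => Real.exp (v (σ * x, σ * (t0 * x))))
        hl1'.ne', smul_eq_mul, mul_zero, mul_div_cancel₀ _ hl1'.ne']
  have e2 : ∫ a in Ioo 0 (R / l), Q a =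
      l⁻¹ * ∫ a in (0 : ℝ)..R, Real.exp (v (σ * a, σ * (t1 * a))) := by
    rw [← integral_Ioc_eq_integral_Ioo, ← intervalIntegral.integral_of_le (by positivity), hQ,
      intervalIntegral.integral_comp_mul_left (fun x => Real.exp (v (σ * x, σ * (t1 * x))))
        hl0.ne', smul_eq_mul, mul_zero, mul_div_cancel₀ _ hl0.ne']
  rw [e1, e2] at key
  set A := ∫ a in (0 : ℝ)..R, Real.exp (v (σ * a, σ * (t0 * a)))
  set B := ∫ a in (0 : ℝ)..R, Real.exp (v (σ * a, σ * (t1 * a)))
  have h3 : A * B = (l * (1 - l)) * ((1 - l)⁻¹ * A * (l⁻¹ * B)) := by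
    field_simp
  have h4 : (l * A + (1 - l) * B) * (∫ a in Ioi (0 : ℝ), Hf a) =
      (l * (1 - l)) * (((1 - l)⁻¹ * A + l⁻¹ * B) * ∫ a in Ioi (0 : ℝ), Hf a) := by
    field_simp
  rw [h3, h4]
  exact mul_le_mul_of_nonneg_left key (by positivity)

/-- concave and Lipschitz -/
structure Nice (u : ℝ × ℝ → ℝ) (M : ℝ) : Prop where
  conc : ConcaveOn ℝ univ u
  lip : ∀ z z', |u z - u z'| ≤ M * (|z.1 - z'.1| + |z.2 - z'.2|)
  M0 : 0 ≤ M

lemma Nice.cont {u : ℝ × ℝ → ℝ} {M : ℝ} (hu : Nice u M) : Continuous u := by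
  have : LipschitzWith (Real.toNNReal (2 * M)) u := by
    apply LipschitzWith.of_dist_le_mul
    intro z z'
    rw [Real.dist_eq, Real.coe_toNNReal _ (by have := hu.M0; positivity), Prod.dist_eq,
      Real.dist_eq, Real.dist_eq]
    have h1 := hu.lip z z'
    have h2 := le_max_left |z.1 - z'.1| |z.2 - z'.2|
    have h3 := le_max_right |z.1 - z'.1| |z.2 - z'.2|
    have h4 := hu.M0
    nlinarith
  exact this.continuous

/-- elementary selection -/
lemma select {P0 P1 N0 N1 Pt Nt l : ℝ} (hP0 : 0 < P0) (hP1 : 0 < P1) (hN0 : 0 < N0)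
    (hN1 : 0 < N1) (hPt : 0 ≤ Pt) (hNt : 0 ≤ Nt) (hl0 : 0 < l) (hl1 : l < 1)
    (hr : P0 * N1 = P1 * N0)
    (h1 : P0 * P1 ≤ (l * P0 + (1 - l) * P1) * Pt) (h2 : N0 * N1 ≤ (l * N0 + (1 - l) * N1) * Nt) :
    P0 + N0 ≤ Pt + Nt ∨ P1 + N1 ≤ Pt + Nt := by
  rcases le_total N0 N1 with h | h
  · left
    have hP : P0 ≤ P1 := by
      by_contra hc
      rw [not_le] at hc
      nlinarith [mul_lt_mul_of_pos_right hc hN1, mul_le_mul_of_nonneg_left h hP1.le]
    have h3 : P0 * P1 ≤ P1 * Pt := h1.trans (mul_le_mul_of_nonneg_right (by nlinarith) hPt)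
    have h4 : N0 * N1 ≤ N1 * Nt := h2.trans (mul_le_mul_of_nonneg_right (by nlinarith) hNt)
    have h5 : P0 ≤ Pt := by
      by_contra hc
      rw [not_le] at hc
      nlinarith
    have h6 : N0 ≤ Nt := by
      by_contra hc
      rw [not_le] at hc
      nlinarith
    linarith
  · right
    have hP : P1 ≤ P0 := by
      by_contra hc
      rw [not_le] at hc
      nlinarith [mul_lt_mul_of_pos_right hc hN0, mul_le_mul_of_nonneg_left h hP0.le]
    have h3 : P0 * P1 ≤ P0 * Pt := h1.trans (mul_le_mul_of_nonneg_right (by nlinarith) hPt)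
    have h4 : N0 * N1 ≤ N0 * Nt := h2.trans (mul_le_mul_of_nonneg_right (by nlinarith) hNt)
    have h5 : P1 ≤ Pt := by
      by_contra hc
      rw [not_le] at hc
      nlinarith
    have h6 : N1 ≤ Nt := by
      by_contra hc
      rw [not_le] at hc
      nlinarith
    linarith

end Pool.Agent.H58.LM.L
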